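import Pool.Agent.H39.TO.Targets

/-!
# Two-orbit polyhedra (MP_397744_co), module BAL: separated sets are finite in balls
-/

namespace Pool.Agent.H34.TOH

open Pool.Agent.H57.CP Pool.Agent.H39.TO

theorem ch_sub_bal (x y : H3) :
    2 * (ch x y - 1) ≤ (x.1 0 - y.1 0) ^ 2 + (x.1 1 - y.1 1) ^ 2 + (x.1 2 - y.1 2) ^ 2 := by
  have hx : mk x.1 x.1 = 1 := x.2.1
  have hy : mk y.1 y.1 = 1 := y.2.1
  unfold ch
  unfold mk at *
  nlinarith [sq_nonneg (x.1 3 - y.1 3)]

theorem pf_BAL (h : Pool.Agent.H57.CP.T_CTR) : T_BAL := by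
  intro V ε hε hsep v R
  by_contra hinf
  have hinf' : {x | x ∈ V ∧ ch v x ≤ R}.Infinite := hinf
  set s : ℕ → H3 := fun k => (hinf'.natEmbedding _ k).1 with hs
  have hsV : ∀ k, s k ∈ V := fun k => (hinf'.natEmbedding _ k).2.1
  have hsR : ∀ k, ch v (s k) ≤ R := fun k => (hinf'.natEmbedding _ k).2.2
  have hinj : Function.Injective s := by
    intro i j hij
    exact (hinf'.natEmbedding _).injective (Subtype.ext hij)
  set R' : ℝ := 2 * ch o v * R with hR'
  have hov : 1 ≤ ch o v := (h o v v).1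
  have hbo : ∀ k : ℕ, (s k).1 3 ≤ R' := by
    intro k
    have h1 := (h o v (s k)).2.2
    have h2 : ch o (s k) = (s k).1 3 := by
      simp [ch, mk, o]
    rw [← h2]
    refine h1.trans ?_
    have := mul_le_mul_of_nonneg_left (hsR k) (by positivity : (0 : ℝ) ≤ 2 * ch o v)
    exact this
  have hbd : ∀ k : ℕ, ∀ i, |(s k).1 i| ≤ R' := by
    intro k i
    have h1 := hbo k
    have h2 : mk (s k).1 (s k).1 = 1 := (s k).2.1
    have h3 := (s k).2.2
    unfold mk at h2
    have h4 : 0 < R' := lt_of_lt_of_le h3 h1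
    have h5 : (s k).1 3 * (s k).1 3 ≤ R' * R' := mul_self_le_mul_self h3.le h1
    apply abs_le_of_sq_le_sq _ h4.le
    fin_cases i
    · simp only [Fin.zero_eta, Fin.isValue]
      nlinarith [sq_nonneg ((s k).1 0), sq_nonneg ((s k).1 1), sq_nonneg ((s k).1 2)]
    · simp only [Fin.mk_one, Fin.isValue]
      nlinarith [sq_nonneg ((s k).1 0), sq_nonneg ((s k).1 1), sq_nonneg ((s k).1 2)]
    · simp only [Fin.reduceFinMk, Fin.isValue]
      nlinarith [sq_nonneg ((s k).1 0), sq_nonneg ((s k).1 1), sq_nonneg ((s k).1 2)]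
    · simp only [Fin.reduceFinMk, Fin.isValue]
      nlinarith
  have hR0 : 0 ≤ R' := le_trans (abs_nonneg _) (hbd 0 0)
  obtain ⟨a, _, φ, hφ, hlim⟩ := tendsto_subseq_of_bounded (s := Metric.closedBall (0 : V4) R') Metric.isBounded_closedBall
    (x := fun k => (s k).1) (by
      intro k
      rw [mem_closedBall_zero_iff, pi_norm_le_iff_of_nonneg hR0]
      exact fun i => hbd k i)
  have hcau := hlim.cauchySeq
  rw [Metric.cauchySeq_iff] at hcau
  set δ : ℝ := min 1 (ε / 3) with hδ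
  have hδ0 : 0 < δ := lt_min one_pos (by positivity)
  obtain ⟨N, hN⟩ := hcau δ hδ0
  have h1 := hN N le_rfl (N + 1) (by omega)
  have hne : s (φ N) ≠ s (φ (N + 1)) := fun he => by
    have := hinj he
    have h2 := hφ (by omega : N < N + 1)
    omega
  have h2 := hsep _ (hsV (φ N)) _ (hsV (φ (N + 1))) hne
  have h3 := ch_sub_bal (s (φ N)) (s (φ (N + 1)))
  have h4 : ∀ i, |(s (φ N)).1 i - (s (φ (N + 1))).1 i| < δ := by
    intro i
    have h5 := dist_le_pi_dist (s (φ N)).1 (s (φ (N + 1))).1 i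
    rw [Real.dist_eq] at h5
    exact lt_of_le_of_lt h5 h1
  have h5 : ∀ i, ((s (φ N)).1 i - (s (φ (N + 1))).1 i) ^ 2 < δ ^ 2 := fun i => by
    rw [← sq_abs]
    exact pow_lt_pow_left₀ (h4 i) (abs_nonneg _) (by norm_num)
  have h6 : δ ^ 2 ≤ ε / 3 := by
    have h7 : δ ≤ 1 := min_le_left _ _
    have h8 : δ ≤ ε / 3 := min_le_right _ _
    nlinarith
  have := h5 0
  have := h5 1
  have := h5 2
  linarith

end Pool.Agent.H34.TOH
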