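import Pool.Agent.H39.TO.Targets

/-!
# Two-orbit polyhedra (MP_397744_co), module PRP: proper discontinuity does not depend on the base point
-/

namespace Pool.Agent.H34.TOH

open Pool.Agent.H57.CP Pool.Agent.H39.TO

theorem lor_one_prp : Lor (1 : Module.End ℝ V4) := ⟨fun _ _ => rfl, fun x => x.2.2⟩

theorem lor_mul_prp {g h : Module.End ℝ V4} (hg : Lor g) (hh : Lor h) : Lor (g * h) := by
  refine ⟨fun x y => ?_, fun x => ?_⟩
  · rw [Module.End.mul_apply, Module.End.mul_apply, hg.1, hh.1]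
  · have h1 : mk (h x.1) (h x.1) = 1 := by rw [hh.1]; exact x.2.1
    exact hg.2 ⟨h x.1, h1, hh.2 x⟩

theorem pf_PRP (hL : Pool.Agent.H57.CP.T_LOR) (hC : Pool.Agent.H57.CP.T_CTR) : T_PRP := by
  intro v n0 n1 n2 h0 h1 h2 hfin x R
  have hlor : ∀ g ∈ Gam n0 n1 n2, Lor g := by
    intro g hg
    unfold Gam at hg
    induction hg using Submonoid.closure_induction with
    | mem y hy =>
      rcases hy with rfl | rfl | hy
      · exact (hL.2.2 n0 h0).1
      · exact (hL.2.2 n1 h1).1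
      · rw [Set.mem_singleton_iff] at hy
        subst hy
        exact (hL.2.2 n2 h2).1
    | one => exact lor_one_prp
    | mul y z _ _ hy hz => exact lor_mul_prp hy hz
  apply (hfin (4 * ch v x ^ 2 * R)).subset
  rintro g ⟨hg, hgR⟩
  refine ⟨hg, ?_⟩
  have hl := hlor g hg
  have hgx : mk (g x.1) (g x.1) = 1 := by rw [hl.1]; exact x.2.1
  have hgv : mk (g v.1) (g v.1) = 1 := by rw [hl.1]; exact v.2.1
  set gx : H3 := ⟨g x.1, hgx, hl.2 x⟩ with hgxd
  set gv : H3 := ⟨g v.1, hgv, hl.2 v⟩ with hgvd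
  have e1 := (hC v x gv).2.2
  have e2 := (hC x gx gv).2.2
  have e3 : ch gx gv = ch x v := hl.1 _ _
  have e4 : ch x v = ch v x := by unfold ch mk; ring
  have e5 : ch x gx ≤ R := hgR
  have e6 : 1 ≤ ch v x := (hC v x x).1
  have e7 : 1 ≤ ch x gx := (hC x gx x).1
  have e8 : ch v gv ≤ 4 * ch v x ^ 2 * R := by
    calc ch v gv ≤ 2 * ch v x * ch x gv := e1
      _ ≤ 2 * ch v x * (2 * ch x gx * ch gx gv) := mul_le_mul_of_nonneg_left e2 (by positivity)
      _ = 4 * ch v x ^ 2 * ch x gx := by rw [e3, e4]; ring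
      _ ≤ 4 * ch v x ^ 2 * R := mul_le_mul_of_nonneg_left e5 (by positivity)
  exact e8

end Pool.Agent.H34.TOH
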