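import Pool.Agent.H39.TO.Targets

/-!
# Two-orbit polyhedra (MP_397744_co), module RTR: from three reflections to a triple with angles `π / p`
-/

namespace Pool.Agent.H34.TOH

open Pool.Agent.H57.CP Pool.Agent.H39.TO

theorem mk_add_left_rtr (x y z : V4) : mk (x + y) z = mk x z + mk y z := by
  simp only [mk, Pi.add_apply]; ring

theorem mk_add_right_rtr (x y z : V4) : mk x (y + z) = mk x y + mk x z := by
  simp only [mk, Pi.add_apply]; ring

theorem mk_smul_left_rtr (a : ℝ) (x y : V4) : mk (a • x) y = a * mk x y := by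
  simp only [mk, Pi.smul_apply, smul_eq_mul]; ring

theorem mk_smul_right_rtr (a : ℝ) (x y : V4) : mk x (a • y) = a * mk x y := by
  simp only [mk, Pi.smul_apply, smul_eq_mul]; ring

theorem mk_comm_rtr (x y : V4) : mk x y = mk y x := by
  simp only [mk]; ring

theorem sin_pos_rtr {p k : ℕ} (h0 : 0 < k) (h1 : k < p) : 0 < Real.sin (k * Real.pi / p) := by
  have hp : (0 : ℝ) < p := by exact_mod_cast (by omega : 0 < p)
  have hk : (0 : ℝ) < k := by exact_mod_cast h0
  have hkp : (k : ℝ) < p := by exact_mod_cast h1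
  apply Real.sin_pos_of_pos_of_lt_pi
  · have := Real.pi_pos
    positivity
  · rw [div_lt_iff₀ hp]
    nlinarith [Real.pi_pos]

theorem sin_pred_rtr (p k : ℕ) : Real.sin ((k - 1) * Real.pi / p) =
    Real.sin (k * Real.pi / p) * Real.cos (Real.pi / p) - Real.cos (k * Real.pi / p) * Real.sin (Real.pi / p) := by
  rw [← Real.sin_sub]
  congr 1
  ring

theorem core_rtr (hP : T_PRP) (p n : ℕ) (v : H3) (n0 n1 n2 : V4) (hp : 3 ≤ p) (hr : RefD p n v n0 n1 n2)
    (t t' : V4) (k k' : ℕ) (e : ℝ) (he : e * e = 1) (hk0 : 0 < k) (hkp : k < p) (hk0' : 0 < k') (hkp' : k' < p)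
    (ht : mk t t = -1) (ht' : mk t' t' = -1) (ha : mk n0 t = Real.cos (Real.pi / p))
    (ha' : mk n0 t' = Real.cos (Real.pi / p))
    (hm : refl t ∈ Submonoid.closure {refl n0, refl n1}) (hm' : refl t' ∈ Submonoid.closure {refl n0, refl n2})
    (hx : Real.sin (Real.pi / p) • (e • n1) = Real.sin (k * Real.pi / p) • t + Real.sin ((k - 1) * Real.pi / p) • n0)
    (hx' : Real.sin (Real.pi / p) • n2 = Real.sin (k' * Real.pi / p) • t' + Real.sin ((k' - 1) * Real.pi / p) • n0) :
    Tri p n0 t t' ∧ (mk n1 n2) ^ 2 = (fk p (CC p t t') k k') ^ 2 := by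
  have hs : 0 < Real.sin (Real.pi / p) := by
    have := sin_pos_rtr (p := p) (k := 1) one_pos (by omega)
    simpa using this
  have hS := sin_pos_rtr hk0 hkp
  have hS' := sin_pos_rtr hk0' hkp'
  have hU := sin_pred_rtr p k
  have hU' := sin_pred_rtr p k'
  set s := Real.sin (Real.pi / p) with hsd
  set c := Real.cos (Real.pi / p) with hcd
  set S := Real.sin (k * Real.pi / p) with hSd
  set S' := Real.sin (k' * Real.pi / p) with hSd'
  set U := Real.sin ((k - 1) * Real.pi / p) with hUd
  set U' := Real.sin ((k' - 1) * Real.pi / p) with hUd'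
  have he0 : e ≠ 0 := by
    intro h
    rw [h] at he
    simp at he
  refine ⟨⟨hr.u0, ht, ht', ha, ha', ?_, ?_⟩, ?_⟩
  · rw [Fintype.linearIndependent_iff]
    intro g hg
    rw [Fin.sum_univ_three] at hg
    simp only [Matrix.cons_val_zero, Matrix.cons_val_one, Matrix.cons_val] at hg
    have e1 : t = (s * e / S) • n1 - (U / S) • n0 := by
      have : S • t = s • (e • n1) - U • n0 := by rw [hx]; simp
      have h2 : t = S⁻¹ • (s • (e • n1) - U • n0) := by
        rw [← this, smul_smul, inv_mul_cancel₀ hS.ne', one_smul]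
      rw [h2, smul_sub, smul_smul, smul_smul, smul_smul]
      congr 1
      · congr 1; ring
      · congr 1; ring
    have e2 : t' = (s / S') • n2 - (U' / S') • n0 := by
      have : S' • t' = s • n2 - U' • n0 := by rw [hx']; simp
      have h2 : t' = S'⁻¹ • (s • n2 - U' • n0) := by
        rw [← this, smul_smul, inv_mul_cancel₀ hS'.ne', one_smul]
      rw [h2, smul_sub, smul_smul, smul_smul]
      congr 1
      · congr 1; ring
      · congr 1; ring
    have e3 := Fintype.linearIndependent_iff.mp hr.li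
      ![g 0 - g 1 * (U / S) - g 2 * (U' / S'), g 1 * (s * e / S), g 2 * (s / S')] (by
        rw [Fin.sum_univ_three]
        simp only [Matrix.cons_val_zero, Matrix.cons_val_one, Matrix.cons_val]
        rw [← hg, e1, e2]
        module)
    have f1 := e3 1
    have f2 := e3 2
    have f0 := e3 0
    simp only [Matrix.cons_val_zero, Matrix.cons_val_one, Matrix.cons_val] at f0 f1 f2
    have g1 : g 1 = 0 := by
      rcases mul_eq_zero.mp f1 with h | h
      · exact h
      · exfalso
        have : s * e / S ≠ 0 := div_ne_zero (mul_ne_zero hs.ne' he0) hS.ne'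
        exact this h
    have g2 : g 2 = 0 := by
      rcases mul_eq_zero.mp f2 with h | h
      · exact h
      · exfalso
        have : s / S' ≠ 0 := div_ne_zero hs.ne' hS'.ne'
        exact this h
    have g0 : g 0 = 0 := by
      rw [g1, g2] at f0
      linarith
    intro i
    fin_cases i
    · exact g0
    · exact g1
    · exact g2
  · apply hP v n0 t t' hr.u0 ht ht'
    intro R
    apply (hr.pro R).subset
    rintro g ⟨hg, hgR⟩
    refine ⟨?_, hgR⟩
    have h1 : Gam n0 t t' ≤ Gam n0 n1 n2 := by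
      unfold Gam
      rw [Submonoid.closure_le]
      rintro y (rfl | rfl | hy)
      · exact Submonoid.subset_closure (by simp)
      · apply Submonoid.closure_mono _ hm
        intro z hz
        simp only [Set.mem_insert_iff, Set.mem_singleton_iff] at hz ⊢
        tauto
      · rw [Set.mem_singleton_iff] at hy
        subst hy
        apply Submonoid.closure_mono _ hm'
        intro z hz
        simp only [Set.mem_insert_iff, Set.mem_singleton_iff] at hz ⊢
        tauto
    exact h1 hg
  · have h1 : mk (s • (e • n1)) (s • n2) = s ^ 2 * (e * mk n1 n2) := by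
      rw [mk_smul_left_rtr, mk_smul_right_rtr, mk_smul_left_rtr]; ring
    have h2 : mk (S • t + U • n0) (S' • t' + U' • n0) = S * S' * mk t t' + c * (S * U' + U * S') - U * U' := by
      rw [mk_add_left_rtr, mk_add_right_rtr, mk_add_right_rtr]
      simp only [mk_smul_left_rtr, mk_smul_right_rtr]
      rw [mk_comm_rtr t n0, ha, ha', hr.u0]
      ring
    have h3 : mk t t' = CC p t t' * s ^ 2 - c ^ 2 := by
      unfold CC
      rw [← hsd, ← hcd]
      field_simp
      ring
    have h4 : s ^ 2 * (e * mk n1 n2) = s ^ 2 * fk p (CC p t t') k k' := by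
      rw [← h1, hx, hx', h2]
      unfold fk
      rw [← hSd, ← hSd', h3, hU, hU']
      ring
    have h5 : e * mk n1 n2 = fk p (CC p t t') k k' := mul_left_cancel₀ (pow_ne_zero 2 hs.ne') h4
    rw [← h5, mul_pow]
    have : e ^ 2 = 1 := by rw [sq]; exact he
    rw [this, one_mul]

theorem cos_sub_rtr {p k : ℕ} (hp : 0 < p) (hk : k ≤ p) :
    Real.cos (((p - k : ℕ) : ℝ) * Real.pi / p) = -Real.cos (k * Real.pi / p) := by
  have h : ((p - k : ℕ) : ℝ) * Real.pi / p = Real.pi - k * Real.pi / p := by
    rw [Nat.cast_sub hk]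
    have : (p : ℝ) ≠ 0 := by positivity
    field_simp
  rw [h, Real.cos_pi_sub]

theorem sin_sub_rtr {p k : ℕ} (hp : 0 < p) (hk : k ≤ p) :
    Real.sin (((p - k : ℕ) : ℝ) * Real.pi / p) = Real.sin (k * Real.pi / p) := by
  have h : ((p - k : ℕ) : ℝ) * Real.pi / p = Real.pi - k * Real.pi / p := by
    rw [Nat.cast_sub hk]
    have : (p : ℝ) ≠ 0 := by positivity
    field_simp
  rw [h, Real.sin_pi_sub]

theorem pf_RTR (hA : T_ANG) (hD : T_DPT) (hP : T_PRP) : T_RTR := by
  intro p n v n0 n1 n2 hp hr
  have hli1 : LinearIndependent ℝ ![n0, n1] := by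
    have := hr.li.comp ![0, 1] (by decide)
    have h2 : (![n0, n1, n2] ∘ ![0, 1]) = ![n0, n1] := by
      ext i; fin_cases i <;> rfl
    rwa [h2] at this
  have hli2 : LinearIndependent ℝ ![n0, n2] := by
    have := hr.li.comp ![0, 2] (by decide)
    have h2 : (![n0, n1, n2] ∘ ![0, 2]) = ![n0, n2] := by
      ext i; fin_cases i <;> rfl
    rwa [h2] at this
  obtain ⟨k, hk0, hkp, hkc, hkm⟩ := hA n0 n1 p hr.u0 hr.u1 (by omega) hli1 hr.o1
  obtain ⟨k', hk0', hkp', hkc', hkm'⟩ := hA n0 n2 p hr.u0 hr.u2 (by omega) hli2 hr.o2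
  obtain ⟨t, ht, hta, htm, htx⟩ := hD n0 n1 k p hr.u0 hr.u1 hp hk0 hkp hkc hkm
  obtain ⟨t', ht', hta', htm', htx'⟩ := hD n0 n2 k' p hr.u0 hr.u2 hp hk0' hkp' hkc' hkm'
  have hne1 : k ≠ k' := by
    intro h
    apply hr.ne
    rw [hkm, hkm', h]
  have hne2 : k + k' ≠ p := by
    intro h
    apply hr.ne
    have h2 : k' = p - k := by omega
    rw [hkm, hkm', h2, cos_sub_rtr (by omega) hkp.le]
    ring
  rcases le_or_gt 0 (CC p t t') with hC | hC
  · obtain ⟨h1, h2⟩ := core_rtr hP p n v n0 n1 n2 hp hr t t' k k' 1 (by norm_num) hk0 hkp hk0' hkp' ht ht' hta hta' htm htm'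
      (by rw [one_smul]; exact htx) htx'
    exact ⟨t, t', k, k', h1, hC, hk0, hkp, hk0', hkp', hkc, hkc', hne1, hne2, h2⟩
  · set c := Real.cos (Real.pi / p) with hcd
    set ts : V4 := -t - (2 * c) • n0 with hts
    have hm0 : mk n0 ts = c := by
      have : mk n0 ts = - mk n0 t - (2 * c) * mk n0 n0 := by
        rw [hts]; simp only [mk, Pi.sub_apply, Pi.neg_apply, Pi.smul_apply, smul_eq_mul]; ring
      rw [this, hta, hr.u0]; ring
    have hm1 : mk ts ts = -1 := by
      have : mk ts ts = mk t t + 4 * c * mk n0 t + 4 * c ^ 2 * mk n0 n0 := by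
        rw [hts]; simp only [mk, Pi.sub_apply, Pi.neg_apply, Pi.smul_apply, smul_eq_mul]; ring
      rw [this, hta, hr.u0, ht]; ring
    have hm2 : mk ts t' = - mk t t' - 2 * c ^ 2 := by
      have : mk ts t' = - mk t t' - 2 * c * mk n0 t' := by
        rw [hts]; simp only [mk, Pi.sub_apply, Pi.neg_apply, Pi.smul_apply, smul_eq_mul]; ring
      rw [this, hta']; ring
    have hrt : refl ts = refl n0 * (refl t * refl n0) := by
      apply LinearMap.ext
      intro x
      rw [Module.End.mul_apply, Module.End.mul_apply]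
      have e1 : ∀ (a y : V4), refl a y = fun i => y i + 2 * mk a y * a i := fun a y => rfl
      have h0 := hr.u0
      have h1 : mk ts x = - mk t x - 2 * c * mk n0 x := by
        rw [hts]; simp only [mk, Pi.sub_apply, Pi.neg_apply, Pi.smul_apply, smul_eq_mul]; ring
      have h2 : mk t (refl n0 x) = mk t x + 2 * mk n0 x * c := by
        have : mk t (refl n0 x) = mk t x + 2 * mk n0 x * mk n0 t := by
          rw [e1]; simp only [mk]; ring
        rw [this, hta]
      have h3 : mk n0 (refl t (refl n0 x)) = mk n0 x + 2 * mk n0 x * mk n0 n0 + 2 * mk t (refl n0 x) * mk n0 t := by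
        rw [e1 t, e1 n0]; simp only [mk]; ring
      rw [h0, hta, h2] at h3
      funext i
      have h4 : refl ts x i = x i + 2 * mk ts x * ts i := rfl
      have h5 : refl n0 (refl t (refl n0 x)) i = (refl t (refl n0 x)) i + 2 * mk n0 (refl t (refl n0 x)) * n0 i := rfl
      have h6 : (refl t (refl n0 x)) i = (refl n0 x) i + 2 * mk t (refl n0 x) * t i := rfl
      have h7 : (refl n0 x) i = x i + 2 * mk n0 x * n0 i := rfl
      have h8 : ts i = - t i - 2 * c * n0 i := rfl
      rw [h4, h5, h3, h6, h7, h2, h1, h8]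
      ring
    have hmem : refl ts ∈ Submonoid.closure {refl n0, refl n1} := by
      rw [hrt]
      have h0 : refl n0 ∈ Submonoid.closure {refl n0, refl n1} := Submonoid.subset_closure (by simp)
      exact Submonoid.mul_mem _ h0 (Submonoid.mul_mem _ htm h0)
    have hCC : CC p ts t' = - CC p t t' := by
      unfold CC
      rw [hm2, ← hcd]
      ring
    have hU := sin_pred_rtr p k
    have hU2 := sin_pred_rtr p (p - k)
    rw [sin_sub_rtr (by omega) hkp.le, cos_sub_rtr (by omega) hkp.le] at hU2
    obtain ⟨h1, h2⟩ := core_rtr hP p n v n0 n1 n2 hp hr ts t' (p - k) k' (-1) (by norm_num) (by omega) (by omega) hk0' hkp'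
      hm1 ht' hm0 hta' hmem htm'
      (by
        rw [sin_sub_rtr (by omega) hkp.le, hU2, smul_comm, htx, hU, hts]
        rw [← hcd]
        module) htx'
    refine ⟨ts, t', p - k, k', h1, by rw [hCC]; linarith, by omega, by omega, hk0', hkp', ?_, hkc', by omega, by omega, h2⟩
    rw [Nat.coprime_comm]
    have := (Nat.coprime_self_sub_right (m := k) (n := p) hkp.le).mpr hkc.symm
    exact this

end Pool.Agent.H34.TOH
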